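import Pool.Agent.P8H81.LP.Stm2

/-!
# Project LPB (helper81), packages CHB and MRK: Chebyshev and Markov for the planar walk
-/

set_option autoImplicit false

open Finset

namespace Pool.Agent.P8H52.LPB

open Pool.Agent.P8H81.LP

lemma card_paths (N : ℕ) : (Fintype.card (Fin N → Fin 2 × Bool) : ℝ) = 4 ^ N := by
  rw [Fintype.card_fun]
  simp

lemma EV_mono {N : ℕ} {F G : (Fin N → Fin 2 × Bool) → ℝ} (h : ∀ σ, F σ ≤ G σ) : EV N F ≤ EV N G := by
  unfold EV
  exact mul_le_mul_of_nonneg_left (Finset.sum_le_sum fun σ _ => h σ) (by positivity)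

lemma EV_const (N : ℕ) (c : ℝ) : EV N (fun _ => c) = c := by
  unfold EV
  rw [Finset.sum_const, nsmul_eq_mul, Finset.card_univ, card_paths]
  field_simp

lemma EV_add {N : ℕ} (F G : (Fin N → Fin 2 × Bool) → ℝ) :
    EV N (fun σ => F σ + G σ) = EV N F + EV N G := by
  unfold EV
  rw [Finset.sum_add_distrib, mul_add]

lemma EV_mul {N : ℕ} (c : ℝ) (F : (Fin N → Fin 2 × Bool) → ℝ) :
    EV N (fun σ => c * F σ) = c * EV N F := by
  unfold EV
  rw [← Finset.mul_sum]
  ring

lemma EV_sum {N : ℕ} {ι : Type} (s : Finset ι) (F : ι → (Fin N → Fin 2 × Bool) → ℝ) :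
    EV N (fun σ => ∑ i ∈ s, F i σ) = ∑ i ∈ s, EV N (F i) := by
  unfold EV
  rw [Finset.sum_comm, Finset.mul_sum]

/-- the reversal of the step `k` -/
def flp {N : ℕ} (k : Fin N) (σ : Fin N → Fin 2 × Bool) : Fin N → Fin 2 × Bool :=
  fun l => if l = k then ((σ l).1, !(σ l).2) else σ l

lemma flp_flp {N : ℕ} (k : Fin N) (σ : Fin N → Fin 2 × Bool) : flp k (flp k σ) = σ := by
  funext l
  unfold flp
  by_cases h : l = k
  · simp [h]
  · simp [h]

/-- the reversal as an equivalence -/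
def flpE {N : ℕ} (k : Fin N) : (Fin N → Fin 2 × Bool) ≃ (Fin N → Fin 2 × Bool) where
  toFun := flp k
  invFun := flp k
  left_inv := flp_flp k
  right_inv := flp_flp k

/-- the scalar product of two steps -/
def dotp (e e' : Fin 2 × Bool) : ℝ := ((stp e 0 : ℤ) : ℝ) * (stp e' 0 : ℤ) + ((stp e 1 : ℤ) : ℝ) * (stp e' 1 : ℤ)

lemma dotp_self (e : Fin 2 × Bool) : dotp e e = 1 := by
  obtain ⟨i, b⟩ := e
  fin_cases i <;> cases b <;> simp [dotp, stp]

lemma dotp_flip (e e' : Fin 2 × Bool) : dotp (e.1, !e.2) e' = -dotp e e' := by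
  obtain ⟨i, b⟩ := e
  fin_cases i <;> cases b <;> simp [dotp, stp]

lemma sum_dotp_ne {N : ℕ} (k l : Fin N) (h : k ≠ l) :
    ∑ σ : Fin N → Fin 2 × Bool, dotp (σ k) (σ l) = 0 := by
  have h1 : ∑ σ : Fin N → Fin 2 × Bool, dotp (σ k) (σ l) =
      ∑ σ : Fin N → Fin 2 × Bool, dotp ((flpE k σ) k) ((flpE k σ) l) :=
    (Equiv.sum_comp (flpE k) (fun σ => dotp (σ k) (σ l))).symm
  have h2 : ∀ σ : Fin N → Fin 2 × Bool, dotp ((flpE k σ) k) ((flpE k σ) l) = -dotp (σ k) (σ l) := by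
    intro σ
    have e1 : (flpE k σ) k = ((σ k).1, !(σ k).2) := by
      show flp k σ k = _
      simp [flp]
    have e2 : (flpE k σ) l = σ l := by
      show flp k σ l = _
      simp [flp, h.symm]
    rw [e1, e2, dotp_flip]
  rw [Finset.sum_congr rfl (fun σ _ => h2 σ), Finset.sum_neg_distrib] at h1
  linarith

lemma pos_apply {N : ℕ} (σ : Fin N → Fin 2 × Bool) (n : ℕ) (i : Fin 2) :
    ((pos σ n i : ℤ) : ℝ) = ∑ k ∈ univ.filter (fun k : Fin N => k.val < n), ((stp (σ k) i : ℤ) : ℝ) := by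
  unfold pos
  rw [Finset.sum_apply]
  push_cast
  rfl

lemma second (N n : ℕ) : EV N (fun σ => ((pos σ n 0 : ℤ) : ℝ) ^ 2 + ((pos σ n 1 : ℤ) : ℝ) ^ 2) ≤ n := by
  set S : Finset (Fin N) := univ.filter (fun k : Fin N => k.val < n) with hS
  have h1 : ∀ σ : Fin N → Fin 2 × Bool, ((pos σ n 0 : ℤ) : ℝ) ^ 2 + ((pos σ n 1 : ℤ) : ℝ) ^ 2 =
      ∑ k ∈ S, ∑ l ∈ S, dotp (σ k) (σ l) := by
    intro σ
    rw [pos_apply, pos_apply, sq, sq, Finset.sum_mul_sum, Finset.sum_mul_sum, ← Finset.sum_add_distrib]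
    refine Finset.sum_congr rfl fun k _ => ?_
    rw [← Finset.sum_add_distrib]
    rfl
  have h2 : ∀ k ∈ S, ∀ l ∈ S, EV N (fun σ => dotp (σ k) (σ l)) = if k = l then 1 else 0 := by
    intro k _ l _
    by_cases h : k = l
    · subst h
      rw [if_pos rfl]
      simp only [dotp_self]
      exact EV_const N 1
    · rw [if_neg h]
      unfold EV
      rw [sum_dotp_ne k l h, mul_zero]
  have h3 : EV N (fun σ => ((pos σ n 0 : ℤ) : ℝ) ^ 2 + ((pos σ n 1 : ℤ) : ℝ) ^ 2) =
      ∑ k ∈ S, ∑ l ∈ S, (if k = l then (1 : ℝ) else 0) := by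
    rw [show (fun σ : Fin N → Fin 2 × Bool => ((pos σ n 0 : ℤ) : ℝ) ^ 2 + ((pos σ n 1 : ℤ) : ℝ) ^ 2) =
      fun σ => ∑ k ∈ S, ∑ l ∈ S, dotp (σ k) (σ l) from funext h1]
    rw [EV_sum S (fun k σ => ∑ l ∈ S, dotp (σ k) (σ l))]
    refine Finset.sum_congr rfl fun k hk => ?_
    rw [EV_sum S (fun l σ => dotp (σ k) (σ l))]
    exact Finset.sum_congr rfl fun l hl => h2 k hk l hl
  rw [h3]
  have h4 : ∀ k ∈ S, ∑ l ∈ S, (if k = l then (1 : ℝ) else 0) = 1 := by
    intro k hk
    rw [Finset.sum_ite_eq S k (fun _ => (1 : ℝ)), if_pos hk]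
  rw [Finset.sum_congr rfl h4, Finset.sum_const, nsmul_eq_mul, mul_one]
  have h5 : S.card ≤ n := by
    have h6 : (S.map Fin.valEmbedding) ⊆ Finset.range n := by
      intro x hx
      rw [Finset.mem_map] at hx
      obtain ⟨k, hk, rfl⟩ := hx
      rw [hS, Finset.mem_filter] at hk
      exact Finset.mem_range.2 hk.2
    have := Finset.card_le_card h6
    rwa [Finset.card_map, Finset.card_range] at this
  exact_mod_cast h5

theorem chb : S_CHB := by
  intro N B n hB hn hnN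
  have hR : (1 : ℝ) ≤ (rad B n : ℝ) := by
    have : 1 ≤ rad B n := by
      unfold rad
      exact Nat.mul_pos hB (Nat.succ_pos _)
    exact_mod_cast this
  have hR0 : (0 : ℝ) < (rad B n : ℝ) := by linarith
  have h1 : ∀ σ : Fin N → Fin 2 × Bool, (if pos σ n ∈ Pool.Agent.P8H81.LP.box (rad B n) then (0 : ℝ) else 1) ≤
      (1 / (rad B n : ℝ) ^ 2) * (((pos σ n 0 : ℤ) : ℝ) ^ 2 + ((pos σ n 1 : ℤ) : ℝ) ^ 2) := by
    intro σ
    by_cases h : pos σ n ∈ Pool.Agent.P8H81.LP.box (rad B n)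
    · rw [if_pos h]; positivity
    · rw [if_neg h]
      have h2 : ∃ i : Fin 2, ¬ (-(rad B n : ℤ) ≤ pos σ n i ∧ pos σ n i ≤ (rad B n : ℤ)) := by
        by_contra hc
        push Not at hc
        apply h
        unfold Pool.Agent.P8H81.LP.box
        rw [Fintype.mem_piFinset]
        intro i
        rw [Finset.mem_Icc]
        exact hc i
      have h3 : (rad B n : ℝ) ^ 2 ≤ ((pos σ n 0 : ℤ) : ℝ) ^ 2 + ((pos σ n 1 : ℤ) : ℝ) ^ 2 := by
        obtain ⟨i, hi⟩ := h2
        have h4 : (rad B n : ℝ) ^ 2 ≤ ((pos σ n i : ℤ) : ℝ) ^ 2 := by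
          have h5 : (rad B n : ℤ) ≤ |pos σ n i| := by
            by_contra hc
            push Not at hc
            apply hi
            have := abs_lt.1 hc
            exact ⟨this.1.le, this.2.le⟩
          have h6 : (rad B n : ℝ) ≤ |((pos σ n i : ℤ) : ℝ)| := by exact_mod_cast h5
          calc (rad B n : ℝ) ^ 2 ≤ |((pos σ n i : ℤ) : ℝ)| ^ 2 := pow_le_pow_left₀ hR0.le h6 2
            _ = ((pos σ n i : ℤ) : ℝ) ^ 2 := sq_abs _
        fin_cases i
        · have := sq_nonneg ((pos σ n 1 : ℤ) : ℝ)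
          simp only [Fin.zero_eta] at h4
          linarith
        · have := sq_nonneg ((pos σ n 0 : ℤ) : ℝ)
          simp only [Fin.mk_one] at h4
          linarith
      rw [one_div, inv_mul_eq_div, one_le_div (by positivity)]
      exact h3
  have h7 : EV N (fun σ => if pos σ n ∈ Pool.Agent.P8H81.LP.box (rad B n) then (0 : ℝ) else 1) ≤ (1 / (rad B n : ℝ) ^ 2) * n := by
    refine (EV_mono h1).trans ?_
    rw [EV_mul]
    exact mul_le_mul_of_nonneg_left (second N n) (by positivity)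
  have h8 : (1 / (rad B n : ℝ) ^ 2) * n ≤ 1 / (B : ℝ) ^ 2 := by
    have hB' : (0 : ℝ) < B := by exact_mod_cast hB
    have h9 : (n : ℝ) ≤ ((Nat.sqrt n : ℝ) + 1) ^ 2 := by
      have := (Nat.lt_succ_sqrt' n).le
      exact_mod_cast this
    have h10 : (rad B n : ℝ) = B * ((Nat.sqrt n : ℝ) + 1) := by
      unfold rad; push_cast; rfl
    rw [h10, mul_pow, one_div, inv_mul_eq_div, div_le_div_iff₀ (by positivity) (by positivity)]
    nlinarith [sq_nonneg (B : ℝ), mul_le_mul_of_nonneg_left h9 (sq_nonneg (B : ℝ))]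
  exact h7.trans h8

theorem mrk : S_MRK := by
  intro hC N B hB g hg t ht
  set G : ℝ := ∑ n ∈ Icc 1 N, g n with hG
  have hG0 : 0 ≤ G := Finset.sum_nonneg fun n _ => hg n
  have hB' : (0 : ℝ) < B := by exact_mod_cast hB
  set out : (Fin N → Fin 2 × Bool) → ℝ := fun σ =>
    ∑ n ∈ Icc 1 N, g n * (if pos σ n ∈ Pool.Agent.P8H81.LP.box (rad B n) then (0 : ℝ) else 1) with hout
  have h1 : ∀ σ : Fin N → Fin 2 × Bool,
      ∑ n ∈ Icc 1 N, g n * (if pos σ n ∈ Pool.Agent.P8H81.LP.box (rad B n) then (1 : ℝ) else 0) = G - out σ := by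
    intro σ
    rw [hG, hout, ← Finset.sum_sub_distrib]
    refine Finset.sum_congr rfl fun n _ => ?_
    by_cases h : pos σ n ∈ Pool.Agent.P8H81.LP.box (rad B n)
    · rw [if_pos h, if_pos h]; ring
    · rw [if_neg h, if_neg h]; ring
  have hout0 : ∀ σ, 0 ≤ out σ := fun σ => Finset.sum_nonneg fun n _ =>
    mul_nonneg (hg n) (by split_ifs <;> norm_num)
  have houtG : ∀ σ, out σ ≤ G := by
    intro σ
    refine Finset.sum_le_sum fun n _ => ?_
    by_cases h : pos σ n ∈ Pool.Agent.P8H81.LP.box (rad B n)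
    · rw [if_pos h, mul_zero]; exact hg n
    · rw [if_neg h, mul_one]
  have hEout : EV N out ≤ G / (B : ℝ) ^ 2 := by
    rw [hout, EV_sum (Icc 1 N) (fun n (σ : Fin N → Fin 2 × Bool) =>
      g n * (if pos σ n ∈ Pool.Agent.P8H81.LP.box (rad B n) then (0 : ℝ) else 1)), hG, Finset.sum_div]
    refine Finset.sum_le_sum fun n hn => ?_
    rw [EV_mul]
    rw [Finset.mem_Icc] at hn
    have h2 := hC N B n hB hn.1 hn.2
    have h3 : EV N (fun σ => if pos σ n ∈ Pool.Agent.P8H81.LP.box (rad B n) then (0 : ℝ) else 1) ≤ 1 / (B : ℝ) ^ 2 := h2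
    calc g n * EV N (fun σ => if pos σ n ∈ Pool.Agent.P8H81.LP.box (rad B n) then (0 : ℝ) else 1)
        ≤ g n * (1 / (B : ℝ) ^ 2) := mul_le_mul_of_nonneg_left h3 (hg n)
      _ = g n / (B : ℝ) ^ 2 := by ring
  have key : EV N (fun σ => Real.exp (-t * (G - out σ))) ≤ Real.exp (-t * G / 2) + 2 / (B : ℝ) ^ 2 := by
    rcases hG0.eq_or_lt with h0 | h0
    · have h2 : ∀ σ : Fin N → Fin 2 × Bool, Real.exp (-t * (G - out σ)) ≤ 1 := by
        intro σ
        rw [Real.exp_le_one_iff]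
        have := houtG σ
        nlinarith
      refine (EV_mono h2).trans ?_
      rw [EV_const, ← h0]
      simp only [mul_zero, zero_div, Real.exp_zero]
      have : 0 ≤ 2 / (B : ℝ) ^ 2 := by positivity
      linarith
    · have h2 : ∀ σ : Fin N → Fin 2 × Bool, Real.exp (-t * (G - out σ)) ≤
          Real.exp (-t * G / 2) + (2 / G) * out σ := by
        intro σ
        by_cases h : out σ ≤ G / 2
        · have h3 : Real.exp (-t * (G - out σ)) ≤ Real.exp (-t * G / 2) := by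
            rw [Real.exp_le_exp]
            nlinarith
          have h4 : 0 ≤ (2 / G) * out σ := mul_nonneg (by positivity) (hout0 σ)
          linarith
        · push Not at h
          have h3 : Real.exp (-t * (G - out σ)) ≤ 1 := by
            rw [Real.exp_le_one_iff]
            have := houtG σ
            nlinarith
          have h4 : 1 ≤ (2 / G) * out σ := by
            rw [div_mul_eq_mul_div, one_le_div h0]
            linarith
          have := Real.exp_pos (-t * G / 2)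
          linarith
      refine (EV_mono h2).trans ?_
      rw [EV_add, EV_const, EV_mul]
      have h5 : (2 / G) * EV N out ≤ (2 / G) * (G / (B : ℝ) ^ 2) :=
        mul_le_mul_of_nonneg_left hEout (by positivity)
      have h6 : (2 / G) * (G / (B : ℝ) ^ 2) = 2 / (B : ℝ) ^ 2 := by
        field_simp
      linarith
  have e : (fun σ : Fin N → Fin 2 × Bool => Real.exp (-t * ∑ n ∈ Icc 1 N, g n *
      (if pos σ n ∈ Pool.Agent.P8H81.LP.box (rad B n) then (1 : ℝ) else 0))) =
      fun σ => Real.exp (-t * (G - out σ)) := by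
    funext σ
    rw [h1 σ]
  rw [e]
  exact key

end Pool.Agent.P8H52.LPB
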